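import Pool.Agent.helper36.PP.SpecE

/-!
# Project pp: (MP_70a088_an): CON, continuation of cycles over a disc without indifferent cycles
-/

set_option autoImplicit false

open Complex Metric Set Filter Topology MeasureTheory MPS MQ

noncomputable section

namespace PPS

/-- the family `f + t X^m`. -/
def CON_F (f : Polynomial ℂ) (m : ℕ) (t : ℂ) : Polynomial ℂ :=
  f + Polynomial.C t * Polynomial.X ^ m

theorem CON_F_eval (f : Polynomial ℂ) (m : ℕ) (t z : ℂ) :
    (CON_F f m t).eval z = f.eval z + t * z ^ m := by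
  unfold CON_F
  rw [Polynomial.eval_add, Polynomial.eval_mul, Polynomial.eval_C, Polynomial.eval_pow,
    Polynomial.eval_X]

theorem CON_F_deg {n m : ℕ} (f : Polynomial ℂ) (hf : f.natDegree = n) (hm : m < n - 1) (t : ℂ) :
    (CON_F f m t).natDegree = n ∧ (CON_F f m t).leadingCoeff = f.leadingCoeff := by
  have h1 : (Polynomial.C t * Polynomial.X ^ m).natDegree < f.natDegree := by
    have := Polynomial.natDegree_C_mul_X_pow_le t m
    omega
  have h2 : (CON_F f m t).natDegree = n := by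
    unfold CON_F
    rw [Polynomial.natDegree_add_eq_left_of_natDegree_lt h1, hf]
  refine ⟨h2, ?_⟩
  rw [Polynomial.leadingCoeff, h2, Polynomial.leadingCoeff, hf]
  unfold CON_F
  rw [Polynomial.coeff_add, Polynomial.coeff_C_mul, Polynomial.coeff_X_pow, if_neg (by omega),
    mul_zero, add_zero]

/-- the iterates as polynomials. -/
def CON_Phi (p : Polynomial ℂ) : ℕ → Polynomial ℂ
  | 0 => Polynomial.X
  | (k + 1) => p.comp (CON_Phi p k)

/-- the leading coefficient of the iterate. -/
def CON_L (a : ℂ) (n : ℕ) : ℕ → ℂ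
  | 0 => 1
  | (k + 1) => a * (CON_L a n k) ^ n

theorem CON_L_ne (a : ℂ) (ha : a ≠ 0) (n : ℕ) : ∀ k, CON_L a n k ≠ 0 := by
  intro k
  induction k with
  | zero => exact one_ne_zero
  | succ k ih => exact mul_ne_zero ha (pow_ne_zero _ ih)

theorem CON_eval (p : Polynomial ℂ) (z : ℂ) :
    ∀ k, (CON_Phi p k).eval z = (fun w : ℂ => p.eval w)^[k] z := by
  intro k
  induction k with
  | zero => simp [CON_Phi]
  | succ m ih => rw [Function.iterate_succ_apply', CON_Phi, Polynomial.eval_comp, ih]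

theorem CON_deg {n : ℕ} (hn : 2 ≤ n) (p : Polynomial ℂ) (hp : p.natDegree = n) :
    ∀ k, (CON_Phi p k).natDegree = n ^ k ∧
      (CON_Phi p k).leadingCoeff = CON_L p.leadingCoeff n k := by
  intro k
  induction k with
  | zero => simp [CON_Phi, CON_L]
  | succ m ih =>
    obtain ⟨h1, h2⟩ := ih
    have h3 : 0 < n ^ m := Nat.pow_pos (by omega)
    constructor
    · rw [CON_Phi, Polynomial.natDegree_comp, hp, h1, pow_succ, mul_comm]
    · rw [CON_Phi, Polynomial.leadingCoeff_comp (by rw [h1]; exact h3.ne'), h2, hp]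
      rfl

theorem CON_coeff_pow (F : ℂ → Polynomial ℂ)
    (hF : ∀ m : ℕ, Differentiable ℂ fun c => (F c).coeff m) :
    ∀ (j m : ℕ), Differentiable ℂ fun c => ((F c) ^ j).coeff m := by
  intro j
  induction j with
  | zero =>
    intro m
    simp only [pow_zero]
    exact differentiable_const _
  | succ i ih =>
    intro m
    have h1 : (fun c => ((F c) ^ (i + 1)).coeff m) = fun c =>
        ∑ x ∈ Finset.HasAntidiagonal.antidiagonal m, ((F c) ^ i).coeff x.1 * (F c).coeff x.2 := by
      funext c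
      rw [pow_succ, Polynomial.coeff_mul]
    rw [h1]
    exact Differentiable.fun_sum fun x _ => (ih x.1).mul (hF x.2)

theorem CON_coeff (f : Polynomial ℂ) (m : ℕ) : ∀ (k j : ℕ),
    Differentiable ℂ fun t => (CON_Phi (CON_F f m t) k).coeff j := by
  intro k
  induction k with
  | zero =>
    intro j
    simp only [CON_Phi]
    exact differentiable_const _
  | succ i ih =>
    intro j
    have h1 : (fun t => (CON_Phi (CON_F f m t) (i + 1)).coeff j) = fun t =>
        (∑ l ∈ Finset.range (f.natDegree + 1),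
          f.coeff l * ((CON_Phi (CON_F f m t) i) ^ l).coeff j) +
        t * ((CON_Phi (CON_F f m t) i) ^ m).coeff j := by
      funext t
      have h2 : CON_Phi (CON_F f m t) (i + 1) = f.comp (CON_Phi (CON_F f m t) i) +
          Polynomial.C t * (CON_Phi (CON_F f m t) i) ^ m := by
        rw [CON_Phi]
        conv_lhs => rw [show CON_F f m t = f + Polynomial.C t * Polynomial.X ^ m from rfl]
        rw [Polynomial.add_comp, Polynomial.mul_comp, Polynomial.C_comp, Polynomial.pow_comp,
          Polynomial.X_comp]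
        rfl
      have h3 : f.comp (CON_Phi (CON_F f m t) i) = ∑ l ∈ Finset.range (f.natDegree + 1),
          Polynomial.C (f.coeff l) * (CON_Phi (CON_F f m t) i) ^ l := by
        rw [Polynomial.comp, Polynomial.eval₂_eq_sum_range]
      rw [h2, Polynomial.coeff_add, h3, Polynomial.finsetSum_coeff, Polynomial.coeff_C_mul]
      congr 1
      refine Finset.sum_congr rfl fun l _ => ?_
      rw [Polynomial.coeff_C_mul]
    rw [h1]
    refine (Differentiable.fun_sum fun l _ => ?_).add ?_
    · exact (CON_coeff_pow (fun t => CON_Phi (CON_F f m t) i) ih l j).const_mul _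
    · exact differentiable_id.mul (CON_coeff_pow (fun t => CON_Phi (CON_F f m t) i) ih m j)

theorem CON_deriv (p : Polynomial ℂ) (k : ℕ) (z : ℂ) :
    HasDerivAt ((fun w : ℂ => p.eval w)^[k]) (mlt p k z) z := by
  have h1 : HasDerivAt (fun x => (CON_Phi p k).eval x) ((CON_Phi p k).derivative.eval z) z :=
    Polynomial.hasDerivAt _ z
  have h2 : (fun x => (CON_Phi p k).eval x) = (fun w : ℂ => p.eval w)^[k] := by
    funext x
    rw [CON_eval]
  rw [h2] at h1
  unfold mlt
  rw [h1.deriv]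
  exact h1

theorem CON_deriv' (p : Polynomial ℂ) (k : ℕ) (a z : ℂ) :
    (Polynomial.C a * (CON_Phi p k - Polynomial.X)).derivative.eval z = a * (mlt p k z - 1) := by
  have h1 : HasDerivAt (fun x => (CON_Phi p k).eval x) ((CON_Phi p k).derivative.eval z) z :=
    Polynomial.hasDerivAt _ z
  have h2 : (fun x => (CON_Phi p k).eval x) = (fun w : ℂ => p.eval w)^[k] := by
    funext x
    rw [CON_eval]
  rw [h2] at h1
  have h3 := h1.unique (CON_deriv p k z)
  rw [Polynomial.derivative_C_mul, Polynomial.eval_mul, Polynomial.eval_C,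
    Polynomial.derivative_sub, Polynomial.derivative_X, Polynomial.eval_sub, Polynomial.eval_one,
    h3]

/-- the iterate as a function of parameter and point -/
def CON_G (f : Polynomial ℂ) (m k : ℕ) (p : ℂ × ℂ) : ℂ :=
  (fun w : ℂ => (CON_F f m p.1).eval w)^[k] p.2

theorem CON_G_contDiff (f : Polynomial ℂ) (m : ℕ) : ∀ k, ContDiff ℂ 1 (CON_G f m k) := by
  intro k
  induction k with
  | zero => exact contDiff_snd
  | succ i ih =>
    have h1 : CON_G f m (i + 1) = fun p => Polynomial.aeval (CON_G f m i p) f +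
        p.1 * (CON_G f m i p) ^ m := by
      funext p
      unfold CON_G
      rw [Function.iterate_succ_apply', Polynomial.coe_aeval_eq_eval]
      exact CON_F_eval f m p.1 _
    rw [h1]
    exact ((Polynomial.contDiff_aeval f 1).comp ih).add (contDiff_fst.mul (ih.pow m))

/-- local uniqueness of simple periodic points -/
theorem CON_uniq (f : Polynomial ℂ) (m k : ℕ) (z w : ℂ → ℂ) (c : ℂ) (hz : ContinuousAt z c)
    (hw : ContinuousAt w c) (hzw : w c = z c)
    (hz1 : ∀ᶠ c' in 𝓝 c, (fun w : ℂ => (CON_F f m c').eval w)^[k] (z c') = z c')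
    (hw1 : ∀ᶠ c' in 𝓝 c, (fun w : ℂ => (CON_F f m c').eval w)^[k] (w c') = w c')
    (hm : mlt (CON_F f m c) k (z c) ≠ 1) :
    ∀ᶠ c' in 𝓝 c, w c' = z c' := by
  set F : ℂ × ℂ → ℂ := fun p => CON_G f m k p - p.2 with hF
  have hFc : ContDiff ℂ 1 F := (CON_G_contDiff f m k).sub contDiff_snd
  have hs : HasStrictFDerivAt F (fderiv ℂ F (c, z c)) (c, z c) :=
    hFc.contDiffAt.hasStrictFDerivAt one_ne_zero
  set L := fderiv ℂ F (c, z c) with hL
  have hL1 : L (0, 1) = mlt (CON_F f m c) k (z c) - 1 := by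
    have h1 : HasDerivAt (fun x : ℂ => (c, x)) ((0 : ℂ), (1 : ℂ)) (z c) :=
      (hasDerivAt_const (z c) c).prodMk (hasDerivAt_id (z c))
    have h2 : HasDerivAt (F ∘ fun x : ℂ => (c, x)) (L (0, 1)) (z c) :=
      HasFDerivAt.comp_hasDerivAt (z c) hs.hasFDerivAt h1
    have h3 : HasDerivAt (F ∘ fun x : ℂ => (c, x)) (mlt (CON_F f m c) k (z c) - 1) (z c) :=
      (CON_deriv (CON_F f m c) k (z c)).sub (hasDerivAt_id (z c))
    exact h2.unique h3
  have hne : mlt (CON_F f m c) k (z c) - 1 ≠ 0 := sub_ne_zero.2 hm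
  have hpos : 0 < ‖mlt (CON_F f m c) k (z c) - 1‖ / 2 := half_pos (norm_pos_iff.2 hne)
  have ho := hs.isLittleO.def hpos
  have htend : Tendsto (fun c' : ℂ => (((c', w c') : ℂ × ℂ), ((c', z c') : ℂ × ℂ))) (𝓝 c)
      (𝓝 ((c, z c), (c, z c))) := by
    have h1 : Tendsto (fun c' : ℂ => ((c', w c') : ℂ × ℂ)) (𝓝 c) (𝓝 (c, z c)) := by
      rw [← hzw]
      exact tendsto_id.prodMk_nhds hw
    have h2 : Tendsto (fun c' : ℂ => ((c', z c') : ℂ × ℂ)) (𝓝 c) (𝓝 (c, z c)) :=
      tendsto_id.prodMk_nhds hz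
    exact h1.prodMk_nhds h2
  filter_upwards [htend.eventually ho, hz1, hw1] with c' h1 h2 h3
  have h4 : F (c', w c') = 0 := by
    show (fun w : ℂ => (CON_F f m c').eval w)^[k] (w c') - w c' = 0
    rw [h3, sub_self]
  have h5 : F (c', z c') = 0 := by
    show (fun w : ℂ => (CON_F f m c').eval w)^[k] (z c') - z c' = 0
    rw [h2, sub_self]
  have h6 : ((c', w c') : ℂ × ℂ) - (c', z c') = (w c' - z c') • ((0 : ℂ), (1 : ℂ)) := by
    ext <;> simp
  rw [h4, h5, sub_zero, zero_sub, norm_neg, h6, map_smul, hL1, norm_smul, norm_smul] at h1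
  have h7 : ‖((0 : ℂ), (1 : ℂ))‖ = 1 := by simp
  rw [h7, mul_one] at h1
  have h8 : ‖w c' - z c'‖ = 0 := by
    by_contra h
    have h9 : 0 < ‖w c' - z c'‖ := lt_of_le_of_ne (norm_nonneg _) (Ne.symm h)
    nlinarith
  exact sub_eq_zero.1 (norm_eq_zero.1 h8)

/-- the multiplier of a periodic point is not `1`. -/
theorem CON_mlt (p : Polynomial ℂ) (k : ℕ) (hk : 0 < k) (z : ℂ)
    (hz : (fun w : ℂ => p.eval w)^[k] z = z)
    (h : ∀ k', Cyc p k' z → ‖mlt p k' z‖ ≠ 1) : mlt p k z ≠ 1 := by
  set k' := Function.minimalPeriod (fun w : ℂ => p.eval w) z with hk'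
  have hdvd : k' ∣ k := Function.IsPeriodicPt.minimalPeriod_dvd hz
  have hpos : 0 < k' := Nat.pos_of_dvd_of_pos hdvd hk
  obtain ⟨j, rfl⟩ := hdvd
  have hper : (fun w : ℂ => p.eval w)^[k'] z = z :=
    Function.isPeriodicPt_minimalPeriod (fun w : ℂ => p.eval w) z
  have h1 : HasDerivAt (((fun w : ℂ => p.eval w)^[k'])^[j]) ((mlt p k' z) ^ j) z :=
    HasDerivAt.iterate z (CON_deriv p k' z) hper j
  rw [← Function.iterate_mul] at h1
  have h2 : mlt p (k' * j) z = (mlt p k' z) ^ j := (CON_deriv p (k' * j) z).unique h1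
  have hj : j ≠ 0 := by
    rintro rfl
    omega
  intro h3
  apply h k' ⟨hpos, rfl⟩
  rw [h2] at h3
  have h4 : ‖mlt p k' z‖ ^ j = 1 := by rw [← norm_pow, h3, norm_one]
  exact (pow_eq_one_iff_of_nonneg (norm_nonneg _) hj).1 h4

/-- CON. -/
theorem CON (hZC0 : MPS.ZC0_stmt) : CON_stmt := by
  intro n k m f r hn hf hm hk hr hrep z₀ hz₀
  have hnk : 1 < n ^ k := Nat.one_lt_pow hk.ne' (by omega)
  have hf0 : f.leadingCoeff ≠ 0 := by
    rw [Polynomial.leadingCoeff_ne_zero]
    rintro rfl
    rw [Polynomial.natDegree_zero] at hf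
    omega
  set A : ℂ := CON_L f.leadingCoeff n k with hA
  have hA0 : A ≠ 0 := CON_L_ne _ hf0 n k
  have hF0 : CON_F f m 0 = f := by
    unfold CON_F
    rw [Polynomial.C_0, zero_mul, add_zero]
  have hper0 : (fun w : ℂ => f.eval w)^[k] z₀ = z₀ := by
    have h1 := Function.isPeriodicPt_minimalPeriod (fun w : ℂ => f.eval w) z₀
    rw [hz₀.2] at h1
    exact h1
  have hrep' : ∀ t ∈ ball (0 : ℂ) r, ∀ z, (fun w : ℂ => (CON_F f m t).eval w)^[k] z = z →
      mlt (CON_F f m t) k z ≠ 1 := fun t ht z hz =>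
    CON_mlt _ k hk z hz (fun k' hk' => hrep t ht k' z hk')
  obtain ⟨z, hzd, hzc, hzr⟩ := hZC0 (n ^ k) 0 r
    (fun t => Polynomial.C A⁻¹ * (CON_Phi (CON_F f m t) k - Polynomial.X)) hr
    (by
      intro t ht
      obtain ⟨e1, e2⟩ := CON_F_deg f hf hm t
      obtain ⟨h1, h2⟩ := CON_deg hn (CON_F f m t) e1 k
      rw [e2] at h2
      have h3 : (CON_Phi (CON_F f m t) k - Polynomial.X).natDegree = n ^ k := by
        rw [Polynomial.natDegree_sub_eq_left_of_natDegree_lt, h1]
        rw [Polynomial.natDegree_X, h1]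
        exact hnk
      have h4 : (CON_Phi (CON_F f m t) k - Polynomial.X).leadingCoeff = A := by
        rw [Polynomial.leadingCoeff, h3, Polynomial.coeff_sub, Polynomial.coeff_X,
          if_neg (by omega), sub_zero, ← h1]
        exact h2
      refine ⟨?_, ?_, ?_⟩
      · show (Polynomial.C A⁻¹ * (CON_Phi (CON_F f m t) k - Polynomial.X)).leadingCoeff = 1
        rw [Polynomial.leadingCoeff_mul, Polynomial.leadingCoeff_C, h4, inv_mul_cancel₀ hA0]
      · rw [Polynomial.natDegree_C_mul (inv_ne_zero hA0), h3]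
      · intro z hz
        rw [CON_deriv']
        rw [Polynomial.eval_mul, Polynomial.eval_C, Polynomial.eval_sub, Polynomial.eval_X,
          CON_eval] at hz
        have h5 : (fun w : ℂ => (CON_F f m t).eval w)^[k] z = z :=
          sub_eq_zero.1 ((mul_eq_zero.1 hz).resolve_left (inv_ne_zero hA0))
        exact mul_ne_zero (inv_ne_zero hA0) (sub_ne_zero.2 (hrep' t ht z h5)))
    (by
      intro j
      have h1 : (fun t => (Polynomial.C A⁻¹ * (CON_Phi (CON_F f m t) k - Polynomial.X)).coeff j) =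
          fun t => A⁻¹ * ((CON_Phi (CON_F f m t) k).coeff j -
            (Polynomial.X : Polynomial ℂ).coeff j) := by
        funext t
        rw [Polynomial.coeff_C_mul, Polynomial.coeff_sub]
      rw [h1]
      exact (((CON_coeff f m k j).sub (differentiable_const _)).const_mul _).differentiableOn)
    z₀ (by
      show (Polynomial.C A⁻¹ * (CON_Phi (CON_F f m 0) k - Polynomial.X)).eval z₀ = 0
      rw [hF0, Polynomial.eval_mul, Polynomial.eval_sub, Polynomial.eval_X, CON_eval, hper0,
        sub_self, mul_zero])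
  have hroot : ∀ t ∈ ball (0 : ℂ) r,
      (fun w : ℂ => (CON_F f m t).eval w)^[k] (z t) = z t := by
    intro t ht
    have hz := hzr t ht
    rw [Polynomial.eval_mul, Polynomial.eval_C, Polynomial.eval_sub, Polynomial.eval_X,
      CON_eval] at hz
    exact sub_eq_zero.1 ((mul_eq_zero.1 hz).resolve_left (inv_ne_zero hA0))
  refine ⟨z, hzd, hzc, ?_⟩
  intro c' hc'
  refine ⟨hk, ?_⟩
  show Function.minimalPeriod (fun w : ℂ => (CON_F f m c').eval w) (z c') = k
  have hpk : Function.minimalPeriod (fun w : ℂ => (CON_F f m c').eval w) (z c') ∣ k :=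
    Function.IsPeriodicPt.minimalPeriod_dvd (hroot c' hc')
  have hpper : (fun w : ℂ => (CON_F f m c').eval w)^[Function.minimalPeriod
      (fun w : ℂ => (CON_F f m c').eval w) (z c')] (z c') = z c' :=
    Function.isPeriodicPt_minimalPeriod (fun w : ℂ => (CON_F f m c').eval w) (z c')
  generalize Function.minimalPeriod (fun w : ℂ => (CON_F f m c').eval w) (z c') = p at hpk hpper ⊢
  have hppos : 0 < p := Nat.pos_of_dvd_of_pos hpk hk
  obtain ⟨w, hw⟩ : ∃ w : ℂ → ℂ, ∀ x, w x = CON_G f m p (x, z x) :=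
    ⟨fun x => CON_G f m p (x, z x), fun _ => rfl⟩
  have hwc : ContinuousOn w (ball 0 r) := by
    have h1 : ContinuousOn (fun x => ((x, z x) : ℂ × ℂ)) (ball 0 r) :=
      continuousOn_id.prodMk hzd.continuousOn
    exact ((CON_G_contDiff f m p).continuous.comp_continuousOn h1).congr fun x _ => hw x
  have hwroot : ∀ x ∈ ball (0 : ℂ) r, (fun w : ℂ => (CON_F f m x).eval w)^[k] (w x) = w x := by
    intro x hx
    rw [hw x]
    show (fun w : ℂ => (CON_F f m x).eval w)^[k]
      ((fun w : ℂ => (CON_F f m x).eval w)^[p] (z x)) =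
      (fun w : ℂ => (CON_F f m x).eval w)^[p] (z x)
    rw [← Function.iterate_add_apply, add_comm, Function.iterate_add_apply, hroot x hx]
  set U : Set ℂ := {x ∈ ball (0 : ℂ) r | w x = z x} with hU
  set V : Set ℂ := {x ∈ ball (0 : ℂ) r | w x ≠ z x} with hV
  have hUo : IsOpen U := by
    rw [isOpen_iff_mem_nhds]
    rintro x ⟨hx, hxe⟩
    have hxn : ball (0 : ℂ) r ∈ 𝓝 x := isOpen_ball.mem_nhds hx
    have h1 := CON_uniq f m k z w x (hzd.continuousOn.continuousAt hxn) (hwc.continuousAt hxn) hxe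
      (by filter_upwards [hxn] with y hy using hroot y hy)
      (by filter_upwards [hxn] with y hy using hwroot y hy)
      (hrep' x hx (z x) (hroot x hx))
    filter_upwards [h1, hxn] with y hy1 hy2
    exact ⟨hy2, hy1⟩
  have hVo : IsOpen V := by
    have h1 : V = ball 0 r ∩ (fun x => w x - z x) ⁻¹' {0}ᶜ := by
      ext x
      simp only [hV, mem_ofPred_eq, mem_inter_iff, mem_preimage, mem_compl_iff,
        mem_singleton_iff, sub_eq_zero, ne_eq]
    rw [h1]
    exact (hwc.sub hzd.continuousOn).isOpen_inter_preimage isOpen_ball isOpen_compl_singleton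
  have hsub : ball 0 r ⊆ U := by
    refine (convex_ball (0 : ℂ) r).isPreconnected.subset_left_of_subset_union hUo hVo ?_ ?_ ?_
    · rw [Set.disjoint_left]
      rintro x ⟨-, h1⟩ ⟨-, h2⟩
      exact h2 h1
    · intro x hx
      by_cases h : w x = z x
      · exact Or.inl ⟨hx, h⟩
      · exact Or.inr ⟨hx, h⟩
    · refine ⟨c', hc', hc', ?_⟩
      rw [hw c']
      exact hpper
  have hcU := hsub (mem_ball_self hr)
  have h1 : (fun w : ℂ => f.eval w)^[p] z₀ = z₀ := by
    have h2 : w 0 = z 0 := hcU.2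
    rw [hw 0, hzc] at h2
    have h3 : (fun w : ℂ => (CON_F f m 0).eval w)^[p] z₀ = z₀ := h2
    rw [hF0] at h3
    exact h3
  have h2 : Function.minimalPeriod (fun w : ℂ => f.eval w) z₀ ≤ p :=
    Function.IsPeriodicPt.minimalPeriod_le hppos h1
  rw [hz₀.2] at h2
  exact le_antisymm (Nat.le_of_dvd hk hpk) h2

end PPS
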