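import Pool.Agent.helper25.PP.Spec

set_option autoImplicit false

namespace PP

theorem DN2_choose (m r : ℕ) (hr : 0 < r) :
    (m.choose r : ℝ) ≤ (3 * (m : ℝ) / r) ^ r := by
  have hr0 : (0 : ℝ) < (r : ℝ) := by exact_mod_cast hr
  have h1 : (m.choose r : ℝ) ≤ (m : ℝ) ^ r / (r.factorial : ℝ) := Nat.choose_le_pow_div r m
  have hf : (0 : ℝ) < (r.factorial : ℝ) := by exact_mod_cast r.factorial_pos
  have h2 : (r : ℝ) ^ r / (r.factorial : ℝ) ≤ Real.exp r :=
    Real.pow_div_factorial_le_exp (r : ℝ) hr0.le r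
  have h3 : Real.exp (r : ℝ) ≤ 3 ^ r := by
    have : Real.exp (r : ℝ) = Real.exp 1 ^ r := by
      rw [← Real.exp_nat_mul, mul_one]
    rw [this]
    exact pow_le_pow_left₀ (Real.exp_pos 1).le (by linarith [Real.exp_one_lt_d9]) r
  have h4 : (r : ℝ) ^ r ≤ 3 ^ r * (r.factorial : ℝ) := by
    have := h2.trans h3
    rwa [div_le_iff₀ hf] at this
  refine h1.trans ?_
  rw [div_pow, mul_pow, div_le_div_iff₀ hf (pow_pos hr0 r)]
  calc (m : ℝ) ^ r * (r : ℝ) ^ r ≤ (m : ℝ) ^ r * (3 ^ r * (r.factorial : ℝ)) :=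
        mul_le_mul_of_nonneg_left h4 (by positivity)
    _ = 3 ^ r * (m : ℝ) ^ r * (r.factorial : ℝ) := by ring

theorem DN2 : DN2_stmt := by
  intro n b hb hn
  obtain ⟨k, rfl⟩ : ∃ k, b = k + 4 := ⟨b - 4, by omega⟩
  have hr : 2 * (k + 4) - 3 = 2 * k + 5 := by omega
  have hk : k + 4 - 4 = k := by omega
  rw [hr, hk]
  have hB : ((k + 4 : ℕ) : ℝ) = (k : ℝ) + 4 := by push_cast; ring
  have hB0 : (0 : ℝ) < (k : ℝ) + 4 := by positivity
  have hn' : 130 * ((k : ℝ) + 4) ≤ (n : ℝ) := by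
    have : ((130 * (k + 4) : ℕ) : ℝ) ≤ (n : ℝ) := by exact_mod_cast hn
    push_cast at this
    linarith
  have hn0 : (0 : ℝ) < (n : ℝ) := by linarith
  have h1 : (n.choose (k + 4) : ℝ) ≤ (3 * (n : ℝ) / ((k : ℝ) + 4)) ^ (k + 4) := by
    have := DN2_choose n (k + 4) (by omega)
    rwa [hB] at this
  have h2 : (((k + 4).choose 2).choose (2 * k + 5) : ℝ) ≤
      (9 / 10 * ((k : ℝ) + 4)) ^ (2 * k + 5) := by
    refine (DN2_choose ((k + 4).choose 2) (2 * k + 5) (by omega)).trans ?_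
    refine pow_le_pow_left₀ (by positivity) ?_ _
    rw [Nat.cast_choose_two]
    push_cast
    rw [div_le_iff₀ (by positivity)]
    have hk0 : (0 : ℝ) ≤ (k : ℝ) := by positivity
    nlinarith
  set B : ℝ := (k : ℝ) + 4 with hBdef
  have hx : 243 / 4 * (B / n) ≤ 1 / 2 := by
    rw [← mul_div_assoc, div_le_iff₀ hn0]
    linarith
  have hx0 : 0 ≤ B / (n : ℝ) := by positivity
  rw [hB]
  calc (n.choose (k + 4) : ℝ) * (((k + 4).choose 2).choose (2 * k + 5) : ℝ) * 5 ^ (2 * k + 5)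
      ≤ (3 * (n : ℝ) / B) ^ (k + 4) * (9 / 10 * B) ^ (2 * k + 5) * 5 ^ (2 * k + 5) := by
        refine mul_le_mul_of_nonneg_right ?_ (by positivity)
        exact mul_le_mul h1 h2 (by positivity) (by positivity)
    _ = (27 * (729 / 8)) * (243 / 4 * (B / n)) ^ (k + 1) * (n : ℝ) ^ (2 * k + 5) := by
        have e1 : (9 / 10 * B) ^ (2 * k + 5) * 5 ^ (2 * k + 5) = (9 / 2 * B) ^ (2 * k + 5) := by
          rw [← mul_pow]; congr 1; ring
        rw [mul_assoc, e1]
        rw [div_pow (3 * (n : ℝ)) B, mul_pow 3 (n : ℝ), mul_pow (9 / 2) B,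
          mul_pow (243 / 4) (B / (n : ℝ)), div_pow B (n : ℝ)]
        have e2 : (3 : ℝ) ^ (k + 4) = 27 * 3 ^ (k + 1) := by ring
        have e3 : (9 / 2 : ℝ) ^ (2 * k + 5) = (729 / 8) * (81 / 4) ^ (k + 1) := by
          have : 2 * k + 5 = 2 * (k + 1) + 3 := by ring
          rw [this, pow_add, pow_mul]; norm_num; ring
        have e4 : B ^ (2 * k + 5) = B ^ (k + 4) * B ^ (k + 1) := by
          rw [← pow_add]; congr 1; ring
        have e5 : (n : ℝ) ^ (2 * k + 5) = (n : ℝ) ^ (k + 4) * (n : ℝ) ^ (k + 1) := by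
          rw [← pow_add]; congr 1; ring
        have e6 : (243 / 4 : ℝ) ^ (k + 1) = 3 ^ (k + 1) * (81 / 4) ^ (k + 1) := by
          rw [← mul_pow]; congr 1; norm_num
        rw [e2, e3, e4, e5, e6]
        field_simp
    _ ≤ (27 * (729 / 8)) * (243 / 4 * (B / n) * (1 / 2) ^ k) * (n : ℝ) ^ (2 * k + 5) := by
        refine mul_le_mul_of_nonneg_right ?_ (by positivity)
        refine mul_le_mul_of_nonneg_left ?_ (by positivity)
        rw [pow_succ, mul_comm]
        refine mul_le_mul_of_nonneg_left ?_ (by positivity)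
        exact pow_le_pow_left₀ (by positivity) hx k
    _ ≤ 150000 * (B / n) * (1 / 2) ^ k * (n : ℝ) ^ (2 * k + 5) := by
        refine mul_le_mul_of_nonneg_right ?_ (by positivity)
        have : 0 ≤ B / n * (1 / 2 : ℝ) ^ k := by positivity
        nlinarith

end PP
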