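import Pool.Agent.helper57.PP.Spec

/-!
# Row CNT of project pp: the number of edges of a triangulated projective plane
-/

set_option autoImplicit false

namespace Pool.Agent.helper57.PP

open Finset

/-- Double counting of the incidences between edges and triangles. -/
theorem CNT_double {V : Type} [DecidableEq V] {F : Finset (Finset V)} (hF : IsSurface F) :
    2 * (edges F).card = 3 * F.card := by
  have h := Finset.sum_card_bipartiteAbove_eq_sum_card_bipartiteBelow
    (s := edges F) (t := F) (fun (e t : Finset V) => e ⊆ t)
  have h1 : ∑ e ∈ edges F, (F.bipartiteAbove (fun (e t : Finset V) => e ⊆ t) e).card =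
      ∑ _e ∈ edges F, 2 := by
    refine Finset.sum_congr rfl fun e he => ?_
    exact hF.two e he
  have h2 : ∑ t ∈ F, ((edges F).bipartiteBelow (fun (e t : Finset V) => e ⊆ t) t).card =
      ∑ _t ∈ F, 3 := by
    refine Finset.sum_congr rfl fun t ht => ?_
    have h3 : (edges F).bipartiteBelow (fun (e t : Finset V) => e ⊆ t) t = t.powersetCard 2 := by
      ext e
      rw [Finset.mem_bipartiteBelow, mem_edges, Finset.mem_powersetCard]
      constructor
      · rintro ⟨⟨h4, -⟩, h5⟩
        exact ⟨h5, h4⟩
      · rintro ⟨h5, h4⟩
        exact ⟨⟨h4, t, ht, h5⟩, h5⟩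
    rw [h3, Finset.card_powersetCard, hF.card3 t ht]
    rfl
  rw [h1, h2, Finset.sum_const, Finset.sum_const, smul_eq_mul, smul_eq_mul] at h
  omega

theorem CNT : CNT_stmt := by
  intro V _ _ F hF h
  have h1 := CNT_double hF
  omega

end Pool.Agent.helper57.PP
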